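import Pool.Agent.J4H79.PT.Fin

/-!
# Classes which are rational for both structures
-/

set_option autoImplicit false

namespace Pool.Agent.J4H79.PT

open Complex

/-- a representation of the torsor group on `K ^ d`: the matrix coefficients, times a power of `t`, are
polynomials with coefficients in `K` in the coordinates -/
structure Rep (K : Subfield ℂ) (d : ℕ) where
  /-- the homomorphism -/
  ρ : Pt wt3 →* Matrix (Fin d) (Fin d) ℂ
  /-- the power of `t` -/
  m : ℕ
  /-- the polynomials -/
  F : Fin d → Fin d → MvPolynomial (Option (List ℕ)) K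
  hF : ∀ a b p, p.t ^ m * ρ p a b = MvPolynomial.aeval (coord p) (F a b)

theorem classes (K : Subfield ℂ) (hpi : ∀ m : ℕ, 0 < m → (2 * Real.pi * I) ^ m ∉ K)
    (c0 : Pt wt3) (ht : c0.t = 2 * Real.pi * I)
    (hz : ∀ k : ℕ, c0.ph [k] = riemannZeta (2 * k + 3 : ℕ))
    (d : ℕ) (ρ : Pt wt3 →* Matrix (Fin d) (Fin d) ℂ) (m : ℕ)
    (F : Fin d → Fin d → MvPolynomial (Option (List ℕ)) K)
    (hF : ∀ a b p, p.t ^ m * ρ p a b = MvPolynomial.aeval (coord p) (F a b))
    (hN : ∀ a b, ∀ w : List ℕ, some w ∈ (F a b).vars → ∀ k ∈ w, k ∈ Good K)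
    (v w : Fin d → K)
    (hvw : (ρ c0).mulVec (fun i => (v i : ℂ)) = fun i => (w i : ℂ)) :
    v = w ∧ ∀ p, (ρ p).mulVec (fun i => (v i : ℂ)) = fun i => (v i : ℂ) := by
  let G : Fin d → MvPolynomial (Option (List ℕ)) K := fun a =>
    ∑ b, F a b * MvPolynomial.C (v b) - MvPolynomial.X none ^ m * MvPolynomial.C (w a)
  have hG : ∀ a p, MvPolynomial.aeval (coord p) (G a) =
      p.t ^ m * ((ρ p).mulVec (fun i => (v i : ℂ)) a - w a) := by
    intro a p
    simp only [G, map_sub, map_sum, map_mul, map_pow, MvPolynomial.aeval_X, MvPolynomial.aeval_C,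
      ← hF, Matrix.mulVec, dotProduct, mul_sub, Finset.mul_sum, mul_assoc]
    rfl
  let X : Set (Pt wt3) := {p | (ρ p).mulVec (fun i => (v i : ℂ)) = fun i => (w i : ℂ)}
  have hXG : ∀ p, p ∈ X ↔ ∀ a, MvPolynomial.aeval (coord p) (G a) = 0 := by
    intro p
    change (ρ p).mulVec (fun i => (v i : ℂ)) = (fun i => (w i : ℂ)) ↔ _
    rw [funext_iff]
    apply forall_congr'
    intro a
    rw [hG, mul_eq_zero, sub_eq_zero]
    constructor
    · intro h
      exact Or.inr h
    · rintro (h | h)
      · exact absurd h (pow_ne_zero _ p.ht)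
      · exact h
  have hK : KClosed K X := by
    refine ⟨Set.range G, ?_⟩
    ext p
    rw [hXG]
    simp
  have hH : Heap X := by
    intro x hx y hy z hz
    change (ρ (x * y⁻¹ * z)).mulVec _ = _
    have hy' : (ρ y).mulVec (fun i => (v i : ℂ)) = fun i => (w i : ℂ) := hy
    have hz' : (ρ z).mulVec (fun i => (v i : ℂ)) = fun i => (w i : ℂ) := hz
    have hx' : (ρ x).mulVec (fun i => (v i : ℂ)) = fun i => (w i : ℂ) := hx
    have h1 : (ρ y⁻¹).mulVec (fun i => (w i : ℂ)) = fun i => (v i : ℂ) := by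
      rw [← hy', Matrix.mulVec_mulVec, ← map_mul, inv_mul_cancel, map_one, Matrix.one_mulVec]
    rw [map_mul, map_mul, ← Matrix.mulVec_mulVec, ← Matrix.mulVec_mulVec, hz', h1, hx']
  have hvars : ∀ a, ∀ u : List ℕ, some u ∈ (MvPolynomial.map (algebraMap K ℂ) (G a)).vars →
      ∀ k ∈ u, k ∈ Good K := by
    intro a
    let S : Set (Option (List ℕ)) := {i | ∀ u : List ℕ, i = some u → ∀ k ∈ u, k ∈ Good K}
    have h1 : G a ∈ MvPolynomial.supported K S := by
      apply Subalgebra.sub_mem
      · apply Subalgebra.sum_mem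
        intro b _
        apply Subalgebra.mul_mem
        · rw [MvPolynomial.mem_supported]
          intro i hi u hu
          exact hN a b u (by rw [← hu]; exact hi)
        · exact Subalgebra.algebraMap_mem _ _
      · apply Subalgebra.mul_mem
        · apply Subalgebra.pow_mem
          rw [MvPolynomial.mem_supported, MvPolynomial.vars_X]
          intro i hi u hu
          rw [Finset.coe_singleton, Set.mem_singleton_iff] at hi
          rw [hi] at hu
          exact absurd hu (by simp)
        · exact Subalgebra.algebraMap_mem _ _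
    rw [MvPolynomial.mem_supported] at h1
    intro u hu
    exact h1 (MvPolynomial.vars_map _ _ hu) u rfl
  have hall : ∀ p, p ∈ X := by
    intro p
    rw [hXG]
    intro a
    have h1 := dense_good K hpi c0 ht hz X hK hH hvw (MvPolynomial.map (algebraMap K ℂ) (G a))
      (hvars a) (fun x hx => by
        rw [MvPolynomial.eval_map, ← MvPolynomial.aeval_def]
        exact (hXG x).1 hx a) p
    rwa [MvPolynomial.eval_map, ← MvPolynomial.aeval_def] at h1
  have h1 : v = w := by
    have := hall 1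
    change (ρ 1).mulVec _ = _ at this
    rw [map_one, Matrix.one_mulVec] at this
    funext i
    exact Subtype.ext (congrFun this i)
  refine ⟨h1, fun p => ?_⟩
  have h2 := hall p
  change (ρ p).mulVec _ = _ at h2
  rw [h2, h1]

/-- the dual of the extension given by a letter -/
noncomputable def ext2 (k : ℕ) : Pt wt3 →* Matrix (Fin 2) (Fin 2) ℂ where
  toFun p := !![p.t⁻¹ ^ wt3 k, -(p.ph [k] * p.t⁻¹ ^ wt3 k); 0, 1]
  map_one' := by
    rw [one_t, one_ph, one_cons]
    ext i j
    fin_cases i <;> fin_cases j <;> simp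
  map_mul' p q := by
    rw [mul_letter, mul_t, mul_inv]
    have h1 : q.t⁻¹ ^ wt3 k * q.t ^ wt3 k = 1 := by
      rw [← mul_pow, inv_mul_cancel₀ q.ht, one_pow]
    ext i j
    fin_cases i <;> fin_cases j
    · simp [Matrix.mul_apply, mul_pow]
    · simp only [Matrix.mul_apply, Fin.sum_univ_two, mul_pow]
      simp
      linear_combination (-(p.ph [k] * (p.t ^ wt3 k)⁻¹)) * (by simpa using h1 : (q.t ^ wt3 k)⁻¹ * q.t ^ wt3 k = 1)
    · simp [Matrix.mul_apply]
    · simp [Matrix.mul_apply]

/-- the dual of the extension given by a letter, as a representation over `K` -/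
noncomputable def rep2 (K : Subfield ℂ) (k : ℕ) : Rep K 2 where
  ρ := ext2 k
  m := wt3 k
  F := !![1, -MvPolynomial.X (some [k]); 0, MvPolynomial.X none ^ wt3 k]
  hF := by
    intro a b p
    have h1 : p.t ^ wt3 k * p.t⁻¹ ^ wt3 k = 1 := by
      rw [← mul_pow, mul_inv_cancel₀ p.ht, one_pow]
    fin_cases a <;> fin_cases b
    · simpa [ext2] using h1
    · simp only [ext2, MonoidHom.coe_mk, OneHom.coe_mk]
      simp [coord]
      have h2 : p.t ^ wt3 k * (p.t ^ wt3 k)⁻¹ = 1 := by simpa using h1
      linear_combination p.ph [k] * h2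
    · simp [ext2]
    · simp [ext2, coord]

/-- every class which is rational for both structures is invariant iff all the letters are good -/
theorem classes_iff (K : Subfield ℂ) (hpi : ∀ m : ℕ, 0 < m → (2 * Real.pi * I) ^ m ∉ K)
    (c0 : Pt wt3) (ht : c0.t = 2 * Real.pi * I)
    (hz : ∀ k : ℕ, c0.ph [k] = riemannZeta (2 * k + 3 : ℕ)) :
    (∀ (d : ℕ) (R : Rep K d) (v w : Fin d → K),
      (R.ρ c0).mulVec (fun i => (v i : ℂ)) = (fun i => (w i : ℂ)) →
      v = w ∧ ∀ p, (R.ρ p).mulVec (fun i => (v i : ℂ)) = fun i => (v i : ℂ)) ↔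
    Good K = Set.univ := by
  constructor
  · intro h
    by_contra hcon
    obtain ⟨k, hk⟩ := (Set.ne_univ_iff_exists_notMem _).1 hcon
    obtain ⟨a, ha, b, hb, hab⟩ := not_good hk
    have hT : (2 * Real.pi * I : ℂ) ^ (2 * k + 3) ≠ 0 := by
      apply pow_ne_zero
      rw [← ht]
      exact c0.ht
    obtain ⟨h1, h2⟩ := h 2 (rep2 K k) ![⟨a, ha⟩, 1] ![-⟨b, hb⟩, 1] (by
      ext i
      fin_cases i
      · simp [rep2, ext2, Matrix.mulVec, dotProduct, Fin.sum_univ_two, ht, hz]
        have e1 : riemannZeta (2 * (k : ℂ) + 3) = a + b * (2 * Real.pi * I) ^ wt3 k := by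
          rw [wt3, ← hab]
          push_cast
          rfl
        have e2 : (2 * Real.pi * I : ℂ) ^ wt3 k ≠ 0 := hT
        rw [e1]
        field_simp
        ring
      · simp [rep2, ext2, Matrix.mulVec, dotProduct, Fin.sum_univ_two])
    have h3 : a = -b := by
      have := congrArg (fun x : K => (x : ℂ)) (congrFun h1 0)
      simpa using this
    obtain ⟨p, hp⟩ := exists_off hab
    apply hp
    have h4 := congrFun (h2 p) 0
    simp [rep2, ext2, Matrix.mulVec, dotProduct, Fin.sum_univ_two] at h4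
    have h5 : p.t ^ wt3 k ≠ 0 := pow_ne_zero _ p.ht
    field_simp at h4
    linear_combination -h4 - (p.t ^ wt3 k) * h3
  · intro hg d R v w hvw
    exact classes K hpi c0 ht hz d R.ρ R.m R.F R.hF (fun a b u _ k _ => by rw [hg]; trivial) v w hvw

end Pool.Agent.J4H79.PT
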