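import Pool.Agent.J4H79.PT.Fin
import Pool.Agent.W165.OZ.Fin2

/-!
# The good letters of real number fields
-/

set_option autoImplicit false

namespace Pool.Agent.J4H79.PT

open Complex

lemma T_im (k : ℕ) : ((2 * Real.pi * I : ℂ) ^ (2 * k + 3)).im ≠ 0 := by
  have h1 : (2 * Real.pi * I : ℂ) ^ (2 * k + 3) =
      (((2 * Real.pi) ^ (2 * k + 3) * (-1) ^ (k + 1) : ℝ) : ℂ) * I := by
    rw [mul_pow, show (2 * k + 3) = 2 * (k + 1) + 1 by ring, pow_succ I, pow_mul I, I_sq]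
    push_cast
    ring
  rw [h1, im_ofReal_mul, I_im, mul_one]
  apply mul_ne_zero
  · exact pow_ne_zero _ (by positivity)
  · exact pow_ne_zero _ (by norm_num)

/-- the subfield of the complex numbers given by a real field -/
noncomputable def cx (K : IntermediateField ℚ ℝ) : Subfield ℂ := K.toSubfield.map ofRealHom

lemma mem_cx {K : IntermediateField ℚ ℝ} {x : ℂ} : x ∈ cx K ↔ ∃ r ∈ K, (r : ℂ) = x := by
  rw [cx, Subfield.mem_map]
  rfl

lemma zeta_real (i : ℕ) (hi : 1 < i) :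
    riemannZeta (i : ℂ) = ((∑' n : ℕ, 1 / ((n : ℝ) + 1) ^ i : ℝ) : ℂ) := by
  rw [zeta_eq_tsum_one_div_nat_add_one_cpow (by rw [natCast_re]; exact_mod_cast hi), ofReal_tsum]
  congr 1
  funext n
  rw [cpow_natCast]
  push_cast
  rfl

lemma good_cx (K : IntermediateField ℚ ℝ) (k : ℕ) :
    k ∈ Good (cx K) ↔ (∑' n : ℕ, 1 / ((n : ℝ) + 1) ^ (2 * k + 3)) ∉ K := by
  constructor
  · intro h hK
    refine h _ (mem_cx.2 ⟨_, hK, rfl⟩) 0 (Subfield.zero_mem _) ?_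
    rw [zeta_real (2 * k + 3) (by omega), zero_mul, add_zero]
  · intro h a ha b hb hab
    obtain ⟨a, haK, rfl⟩ := mem_cx.1 ha
    obtain ⟨b, hbK, rfl⟩ := mem_cx.1 hb
    rw [zeta_real (2 * k + 3) (by omega)] at hab
    have h1 := congrArg Complex.im hab
    rw [ofReal_im, add_im, ofReal_im, im_ofReal_mul, zero_add] at h1
    have h2 : b = 0 := by
      rcases mul_eq_zero.1 h1.symm with h | h
      · exact h
      · exact absurd h (T_im k)
    rw [h2, ofReal_zero, zero_mul, add_zero] at hab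
    have h3 := ofReal_injective hab
    exact h (by rw [h3]; exact haK)

lemma pi_pow_notMem (K : IntermediateField ℚ ℝ) [FiniteDimensional ℚ K] (m : ℕ) (hm : 0 < m) :
    (2 * Real.pi * I : ℂ) ^ m ∉ cx K := by
  intro h
  obtain ⟨r, hr, hrm⟩ := mem_cx.1 h
  have h1 : IsAlgebraic ℚ (⟨r, hr⟩ : K) := Algebra.IsAlgebraic.isAlgebraic _
  have h2 : IsAlgebraic ℚ r := h1.algebraMap (A := ℝ)
  have h3 : IsAlgebraic ℚ (r : ℂ) := h2.algebraMap (A := ℂ)
  rw [hrm] at h3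
  have h4 : IsAlgebraic ℚ (2 * Real.pi * I : ℂ) := h3.of_pow hm
  have hI : IsAlgebraic ℚ (I : ℂ) := Pool.Agent.H340R2.LW.isAlgebraic_I
  have h2' : IsAlgebraic ℚ (2 : ℂ) := by
    simpa using isAlgebraic_algebraMap (A := ℂ) (2 : ℚ)
  apply Pool.Agent.H340R2.LW.transcendental_pi_complex
  have : (Real.pi : ℂ) = 2 * Real.pi * I * (I⁻¹ * 2⁻¹) := by
    field_simp
  rw [this]
  exact h4.mul (hI.inv.mul h2'.inv)

/-- the number of the good letters of a real number field -/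
theorem count : ∃ c : ℝ, 0 < c ∧ ∃ s0 : ℕ, ∀ s ≥ s0, ∀ K : IntermediateField ℚ ℝ, FiniteDimensional ℚ K →
    (Module.finrank ℚ K : ℝ) ≤ c * Real.log (Real.log s) →
    c * Real.sqrt (s * Real.log (Real.log s) / (Module.finrank ℚ K * Real.log s)) ≤
      (Set.ncard {k : ℕ | 2 * k + 3 ≤ s ∧ k ∈ Good (cx K)} : ℝ) := by
  obtain ⟨c, hc, s0, h⟩ := Pool.Agent.W165.OZ.z_final2
  refine ⟨c, hc, s0, fun s hs K hK hD => (h s hs K hK hD).trans ?_⟩
  have hsub : {i : ℕ | 3 ≤ i ∧ i ≤ s ∧ Odd i ∧ (∑' n : ℕ, 1 / ((n : ℝ) + 1) ^ i) ∉ K} ⊆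
      (fun k => 2 * k + 3) '' {k : ℕ | 2 * k + 3 ≤ s ∧ k ∈ Good (cx K)} := by
    rintro i ⟨h1, h2, h3, h4⟩
    obtain ⟨j, rfl⟩ := h3
    refine ⟨j - 1, ⟨by omega, ?_⟩, ?_⟩
    · rw [good_cx, show 2 * (j - 1) + 3 = 2 * j + 1 by omega]
      exact h4
    · change 2 * (j - 1) + 3 = 2 * j + 1
      omega
  have hfin : {k : ℕ | 2 * k + 3 ≤ s ∧ k ∈ Good (cx K)}.Finite :=
    (Set.finite_Iic s).subset fun k hk => by
      have := hk.1
      simp only [Set.mem_Iic]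
      omega
  have h1 := Set.ncard_le_ncard hsub (hfin.image _)
  have h2 := Set.ncard_image_le (f := fun k => 2 * k + 3) hfin
  exact_mod_cast h1.trans h2

end Pool.Agent.J4H79.PT
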