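import Pool.Agent.J4H79.PT.Main
import Pool.Agent.H340R2.LW

/-!
# The torsor of the periods of mixed Tate motives over the integers, in coordinates
-/

set_option autoImplicit false

namespace Pool.Agent.J4H79.PT

open Complex

/-- the weights of the letters: the letter `k` stands for the generator of weight `2 k + 3` -/
def wt3 (k : ℕ) : ℕ := 2 * k + 3

/-- `X` is the zero set of a set of polynomials with coefficients in `K` in the coordinates -/
def KClosed (K : Subfield ℂ) (X : Set (Pt wt3)) : Prop :=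
  ∃ S : Set (MvPolynomial (Option (List ℕ)) K),
    X = {p : Pt wt3 | ∀ f ∈ S, MvPolynomial.aeval (coord p) f = 0}

/-- the letters `k` with `ζ (2 k + 3) ∉ K + K (2 π i) ^ (2 k + 3)` -/
def Good (K : Subfield ℂ) : Set ℕ :=
  {k : ℕ | ∀ a ∈ K, ∀ b ∈ K, riemannZeta (2 * k + 3 : ℕ) ≠ a + b * (2 * Real.pi * I) ^ (2 * k + 3)}

lemma coord_gal {ι : Type} {wt : ι → ℕ} (σ : ℂ ≃+* ℂ) (p : Pt wt) (i : Option (List ι)) :
    coord (gal σ p) i = σ (coord p i) := by
  cases i <;> rfl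

lemma aeval_gal {K : Subfield ℂ} {σ : ℂ ≃+* ℂ} (hσ : ∀ x ∈ K, σ x = x) {ι : Type} {wt : ι → ℕ}
    (p : Pt wt) (f : MvPolynomial (Option (List ι)) K) :
    MvPolynomial.aeval (coord (gal σ p)) f = σ (MvPolynomial.aeval (coord p) f) := by
  induction f using MvPolynomial.induction_on with
  | C a =>
    rw [MvPolynomial.aeval_C, MvPolynomial.aeval_C]
    exact (hσ _ a.2).symm
  | add f g hf hg => rw [map_add, map_add, map_add, hf, hg]
  | mul_X f i hf =>
    rw [map_mul, map_mul, map_mul, hf, MvPolynomial.aeval_X, MvPolynomial.aeval_X, coord_gal]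

lemma KClosed.gal_mem {K : Subfield ℂ} {X : Set (Pt wt3)} (hX : KClosed K X) {c0 : Pt wt3}
    (h0 : c0 ∈ X) (σ : ℂ ≃+* ℂ) (hσ : ∀ x ∈ K, σ x = x) : gal σ c0 ∈ X := by
  obtain ⟨S, rfl⟩ := hX
  intro f hf
  rw [aeval_gal hσ, h0 f hf, map_zero]

lemma res_gal {ι κ : Type} {wt : ι → ℕ} (j : κ → ι) (σ : ℂ ≃+* ℂ) (p : Pt wt) :
    res j (gal σ p) = gal σ (res j p) := rfl

/-- the restriction as a homomorphism -/
noncomputable def resHom {ι κ : Type} {wt : ι → ℕ} (j : κ → ι) :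
    Pt wt →* Pt (fun k => wt (j k)) := MonoidHom.mk' (res j) (res_mul j)

lemma coord_res {ι κ : Type} {wt : ι → ℕ} (j : κ → ι) (p : Pt wt) :
    coord (res j p) = coord p ∘ Option.map (List.map j) := by
  funext i
  cases i <;> rfl

/-- density for the words in the good letters -/
theorem dense_good (K : Subfield ℂ) (hpi : ∀ m : ℕ, 0 < m → (2 * Real.pi * I) ^ m ∉ K)
    (c0 : Pt wt3) (ht : c0.t = 2 * Real.pi * I) (hz : ∀ k : ℕ, c0.ph [k] = riemannZeta (2 * k + 3 : ℕ))
    (X : Set (Pt wt3)) (hK : KClosed K X) (hX : Heap X) (h0 : c0 ∈ X)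
    (f : MvPolynomial (Option (List ℕ)) ℂ)
    (hf : ∀ w : List ℕ, some w ∈ f.vars → ∀ k ∈ w, k ∈ Good K)
    (hv : ∀ x ∈ X, MvPolynomial.eval (coord x) f = 0) (p : Pt wt3) :
    MvPolynomial.eval (coord p) f = 0 := by
  let j : Good K → ℕ := Subtype.val
  have hj : Function.Injective j := Subtype.val_injective
  obtain ⟨g, hg⟩ := MvPolynomial.exists_rename_eq_of_vars_subset_range f
    (Option.map (List.map j)) (Option.map_injective (List.map_injective_iff.2 hj)) (by
      intro i hi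
      cases i with
      | none => exact ⟨none, rfl⟩
      | some w =>
        have h1 := hf w hi
        refine ⟨some (w.attach.map fun k => ⟨k.1, h1 k.1 k.2⟩), ?_⟩
        rw [Option.map_some, List.map_map]
        congr 1
        exact List.attach_map_subtype_val w)
  let Y : Set (Pt fun k : Good K => wt3 (j k)) := resHom j '' X
  have hY : Heap Y := by
    rintro _ ⟨x, hx, rfl⟩ _ ⟨y, hy, rfl⟩ _ ⟨z, hz, rfl⟩
    exact ⟨_, hX x hx y hy z hz, by rw [map_mul, map_mul, map_inv]⟩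
  have e : ∀ q : Pt wt3, MvPolynomial.eval (coord q) f = MvPolynomial.eval (coord (resHom j q)) g := by
    intro q
    rw [← hg, MvPolynomial.eval_rename, ← coord_res]
    rfl
  rw [e]
  refine dense hY (c0 := resHom j c0) ⟨c0, h0, rfl⟩ K ?_ ?_ ?_ ?_ ?_ g ?_ _
  · intro σ hσ
    exact ⟨gal σ c0, hK.gal_mem h0 σ hσ, rfl⟩
  · intro a b hab
    apply hj
    simp only [wt3] at hab
    omega
  · intro m hm
    change c0.t ^ m ∉ K
    rw [ht]
    exact hpi m hm
  · intro n
    simp only [wt3]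
    omega
  · intro n a ha b hb
    change c0.ph [j n] ≠ a + b * c0.t ^ wt3 (j n)
    rw [hz, ht]
    exact n.2 a ha b hb
  · rintro _ ⟨x, hx, rfl⟩
    rw [← e]
    exact hv x hx

/-- the point with trivial series -/
noncomputable def torus (s : ℂ) (hs : s ≠ 0) : Pt wt3 := ⟨one, s, IsGL.one, hs⟩

lemma zeta_ne_zero (k : ℕ) : riemannZeta (2 * k + 3 : ℕ) ≠ 0 := by
  apply riemannZeta_ne_zero_of_one_le_re
  rw [natCast_re]
  exact_mod_cast (by omega : 1 ≤ 2 * k + 3)

lemma not_good {K : Subfield ℂ} {k : ℕ} (hk : k ∉ Good K) :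
    ∃ a ∈ K, ∃ b ∈ K, riemannZeta (2 * k + 3 : ℕ) = a + b * (2 * Real.pi * I) ^ (2 * k + 3) := by
  by_contra hcon
  apply hk
  intro a ha b hb h
  exact hcon ⟨a, ha, b, hb, h⟩

/-- the relation of a letter which is not good does not hold on the whole torsor -/
lemma exists_off {k : ℕ} {a b : ℂ}
    (h : riemannZeta (2 * k + 3 : ℕ) = a + b * (2 * Real.pi * I) ^ (2 * k + 3)) :
    ∃ p : Pt wt3, p.ph [k] ≠ a + b * p.t ^ wt3 k := by
  by_contra hcon
  push Not at hcon
  have h1 := hcon (torus 1 one_ne_zero)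
  have h2 := hcon (torus 2 two_ne_zero)
  have e1 : (torus 1 one_ne_zero).ph [k] = 0 := rfl
  have e2 : (torus 2 two_ne_zero).ph [k] = 0 := rfl
  have e3 : (torus 1 one_ne_zero).t = 1 := rfl
  have e4 : (torus 2 two_ne_zero).t = 2 := rfl
  rw [e1, e3, one_pow, mul_one] at h1
  rw [e2, e4] at h2
  have h3 : b * ((2 : ℂ) ^ wt3 k - 1) = 0 := by linear_combination h1 - h2
  have h4 : (2 : ℂ) ^ wt3 k - 1 ≠ 0 := by
    intro h5
    have h6 : (2 : ℂ) ^ wt3 k = 1 := sub_eq_zero.1 h5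
    have h7 : (2 : ℕ) ^ wt3 k = 1 := by exact_mod_cast h6
    rw [Nat.pow_eq_one] at h7
    simp [wt3] at h7
  have h8 : b = 0 := by
    rcases mul_eq_zero.1 h3 with h | h
    · exact h
    · exact absurd h h4
  rw [h8, add_zero] at h1
  rw [h8, ← h1] at h
  simp at h
  exact zeta_ne_zero k (by push_cast; exact h)

lemma inv_letter {ι : Type} {wt : ι → ℕ} (p : Pt wt) (n : ι) :
    (p⁻¹).ph [n] = -(p.t⁻¹ ^ wt n * p.ph [n]) := by
  have := mul_letter p p⁻¹ n
  rw [mul_inv_cancel, one_ph, one_cons, inv_t] at this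
  linear_combination -this

/-- the sets `{ph [k] = a + b t ^ n}` are heap-stable -/
lemma heap_line (k : ℕ) (a b : ℂ) : Heap {p : Pt wt3 | p.ph [k] = a + b * p.t ^ wt3 k} := by
  intro x hx y hy z hz
  change x.ph [k] = a + b * x.t ^ wt3 k at hx
  change y.ph [k] = a + b * y.t ^ wt3 k at hy
  change z.ph [k] = a + b * z.t ^ wt3 k at hz
  change (x * y⁻¹ * z).ph [k] = a + b * (x * y⁻¹ * z).t ^ wt3 k
  rw [mul_letter, mul_letter, inv_letter, mul_t, mul_t, inv_t, hx, hy, hz, mul_pow, mul_pow]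
  have h1 : y.t⁻¹ ^ wt3 k * y.t ^ wt3 k = 1 := by
    rw [← mul_pow, inv_mul_cancel₀ y.ht, one_pow]
  linear_combination (-z.t ^ wt3 k * b) * h1

lemma closed_line (K : Subfield ℂ) (k : ℕ) (a b : ℂ) (ha : a ∈ K) (hb : b ∈ K) :
    KClosed K {p : Pt wt3 | p.ph [k] = a + b * p.t ^ wt3 k} := by
  refine ⟨{MvPolynomial.X (some [k]) - (MvPolynomial.C ⟨a, ha⟩ +
    MvPolynomial.C ⟨b, hb⟩ * MvPolynomial.X none ^ wt3 k)}, ?_⟩
  ext p
  simp only [Set.mem_ofPred_eq, Set.mem_singleton_iff, forall_eq, map_sub, map_add, map_mul, map_pow,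
    MvPolynomial.aeval_X, MvPolynomial.aeval_C, coord]
  rw [sub_eq_zero]
  rfl

/-- the criterion -/
theorem criterion (K : Subfield ℂ) (hpi : ∀ m : ℕ, 0 < m → (2 * Real.pi * I) ^ m ∉ K)
    (c0 : Pt wt3) (ht : c0.t = 2 * Real.pi * I)
    (hz : ∀ k : ℕ, c0.ph [k] = riemannZeta (2 * k + 3 : ℕ)) :
    (∀ X : Set (Pt wt3), KClosed K X → Heap X → c0 ∈ X → X = Set.univ) ↔ Good K = Set.univ := by
  constructor
  · intro h
    by_contra hcon
    obtain ⟨k, hk⟩ := (Set.ne_univ_iff_exists_notMem _).1 hcon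
    obtain ⟨a, ha, b, hb, hab⟩ := not_good hk
    have h1 := h _ (closed_line K k a b ha hb) (heap_line k a b) (by
      change c0.ph [k] = a + b * c0.t ^ wt3 k
      rw [hz, ht, hab]
      rfl)
    obtain ⟨p, hp⟩ := exists_off hab
    apply hp
    have : p ∈ (Set.univ : Set (Pt wt3)) := trivial
    rw [← h1] at this
    exact this
  · intro hg X hK hX h0
    obtain ⟨S, hS⟩ := id hK
    ext p
    refine ⟨fun _ => trivial, fun _ => ?_⟩
    rw [hS]
    intro f hf
    have h1 := dense_good K hpi c0 ht hz X hK hX h0 (MvPolynomial.map (algebraMap K ℂ) f)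
      (fun w _ k _ => by rw [hg]; trivial) (fun x hx => by
        rw [hS] at hx
        have := hx f hf
        rwa [MvPolynomial.eval_map, ← MvPolynomial.aeval_def]) p
    rwa [MvPolynomial.eval_map, ← MvPolynomial.aeval_def] at h1

/-- the closure of a point over `K` -/
def cl (K : Subfield ℂ) (c0 : Pt wt3) : Set (Pt wt3) :=
  {p | ∀ f : MvPolynomial (Option (List ℕ)) K, MvPolynomial.aeval (coord c0) f = 0 →
    MvPolynomial.aeval (coord p) f = 0}

theorem cl_closed (K : Subfield ℂ) (c0 : Pt wt3) : KClosed K (cl K c0) :=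
  ⟨{f | MvPolynomial.aeval (coord c0) f = 0}, rfl⟩

theorem period_iff (K : Subfield ℂ) (hpi : ∀ m : ℕ, 0 < m → (2 * Real.pi * I) ^ m ∉ K)
    (c0 : Pt wt3) (ht : c0.t = 2 * Real.pi * I)
    (hz : ∀ k : ℕ, c0.ph [k] = riemannZeta (2 * k + 3 : ℕ)) :
    (∀ f : MvPolynomial (Option (List ℕ)) K, MvPolynomial.aeval (coord c0) f = 0 →
      ∀ p : Pt wt3, MvPolynomial.aeval (coord p) f = 0) ↔ Heap (cl K c0) ∧ Good K = Set.univ := by
  constructor
  · intro h
    have h1 : cl K c0 = Set.univ := by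
      ext p
      exact ⟨fun _ => trivial, fun _ f hf => h f hf p⟩
    refine ⟨by rw [h1]; exact fun _ _ _ _ _ _ => trivial, ?_⟩
    by_contra hcon
    obtain ⟨k, hk⟩ := (Set.ne_univ_iff_exists_notMem _).1 hcon
    obtain ⟨a, ha, b, hb, hab⟩ := not_good hk
    obtain ⟨S, hS⟩ := closed_line K k a b ha hb
    obtain ⟨p, hp⟩ := exists_off hab
    apply hp
    have h2 : c0 ∈ {p : Pt wt3 | p.ph [k] = a + b * p.t ^ wt3 k} := by
      change c0.ph [k] = a + b * c0.t ^ wt3 k
      rw [hz, ht, hab]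
      rfl
    have h3 : p ∈ {p : Pt wt3 | p.ph [k] = a + b * p.t ^ wt3 k} := by
      rw [hS] at h2 ⊢
      intro f hf
      exact h f (h2 f hf) p
    exact h3
  · rintro ⟨h1, h2⟩ f hf p
    have h3 := (criterion K hpi c0 ht hz).2 h2 (cl K c0) (cl_closed K c0) h1 (fun f hf => hf)
    have h4 : p ∈ cl K c0 := by rw [h3]; trivial
    exact h4 f hf

end Pool.Agent.J4H79.PT
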