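import Pool.Agent.J4H79.PT.Pt
import Pool.Agent.TH119.MX.Gal

/-!
# Heap-stable sets containing all the conjugates of a point
-/

set_option autoImplicit false

namespace Pool.Agent.J4H79.PT

open Finsupp

variable {ι : Type} {wt : ι → ℕ}

/-- stability under `(x, y, z) ↦ x y⁻¹ z` -/
def Heap (X : Set (Pt wt)) : Prop := ∀ x ∈ X, ∀ y ∈ X, ∀ z ∈ X, x * y⁻¹ * z ∈ X

/-- the stabiliser of a heap -/
def stab {X : Set (Pt wt)} (hX : Heap X) {c0 : Pt wt} (h0 : c0 ∈ X) : Subgroup (Pt wt) where
  carrier := {h | c0 * h ∈ X}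
  mul_mem' := by
    intro a b ha hb
    have := hX _ ha _ h0 _ hb
    simpa [mul_assoc] using this
  one_mem' := by simpa using h0
  inv_mem' := by
    intro a ha
    have := hX _ h0 _ ha _ h0
    simpa [mul_assoc] using this

lemma mem_stab {X : Set (Pt wt)} (hX : Heap X) {c0 : Pt wt} (h0 : c0 ∈ X) {h : Pt wt} :
    h ∈ stab hX h0 ↔ c0 * h ∈ X := Iff.rfl

lemma mul_mem_of_stab {X : Set (Pt wt)} (hX : Heap X) {c0 : Pt wt} (h0 : c0 ∈ X) {x h : Pt wt}
    (hx : x ∈ X) (hh : h ∈ stab hX h0) : x * h ∈ X := by
  have := hX _ hx _ h0 _ hh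
  simpa [mul_assoc] using this

/-- the scalar part -/
noncomputable def tHom : Pt wt →* ℂˣ where
  toFun p := Units.mk0 p.t p.ht
  map_one' := by
    ext
    rfl
  map_mul' p q := by
    ext
    rfl

/-- the evaluation of a combination of the functions `t ^ j * ph w` -/
noncomputable def E (x : Pt wt) : (List ι × ℕ →₀ ℂ) →ₗ[ℂ] ℂ :=
  linearCombination ℂ fun a : List ι × ℕ => x.t ^ a.2 * x.ph a.1

/-- translation -/
noncomputable def tau (h : List ι → ℂ) : (List ι × ℕ →₀ ℂ) →ₗ[ℂ] (List ι × ℕ →₀ ℂ) :=
  linearCombination ℂ fun a : List ι × ℕ =>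
    ((splits a.1).map fun p => single (p.2, a.2) (h p.1)).sum

lemma E_single (x : Pt wt) (a : List ι × ℕ) (r : ℂ) :
    E x (single a r) = r * (x.t ^ a.2 * x.ph a.1) := by
  rw [E, linearCombination_single, smul_eq_mul]

lemma E_tau (x h : Pt wt) (hh : h.t = 1) (c : List ι × ℕ →₀ ℂ) :
    E x (tau h.ph c) = E (x * h) c := by
  have : (E x).comp (tau h.ph) = E (x * h) := by
    apply Finsupp.lhom_ext
    intro a r
    rw [LinearMap.comp_apply, tau, linearCombination_single, map_smul, map_list_sum, List.map_map,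
      E_single, mul_ph, mul_t, hh, mul_one, scal_one_left, conv, ← List.sum_map_mul_left, smul_eq_mul]
    congr 2
    apply List.map_congr_left
    intro p _
    rw [Function.comp, E_single]
    ring
  rw [← this]
  rfl

/-- the values of the first letter -/
def lead (h : List ι → ℂ) (v : List ι) (j : ℕ) [DecidableEq ι] : List ι × ℕ → ℂ
  | ([], _) => 0
  | (n :: w, i) => if w = v ∧ i = j then h [n] else 0

lemma tau_single_apply [DecidableEq ι] (h : List ι → ℂ) (h1 : h [] = 1) (a : List ι × ℕ)
    (v : List ι) (j : ℕ) (hv : a.1.length ≤ v.length + 1) (r : ℂ) :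
    (tau h (single a r) - single a r) (v, j) = r * lead h v j a := by
  obtain ⟨w, i⟩ := a
  rw [tau, linearCombination_single]
  cases w with
  | nil => simp [splits, h1, lead]
  | cons n w =>
    simp only [splits, List.map_cons, List.sum_cons, List.map_map, h1]
    have e : r • (single (n :: w, i) (1 : ℂ) + (List.map ((fun p : List ι × List ι =>
        single (p.2, i) (h p.1)) ∘ fun p => (n :: p.1, p.2)) (splits w)).sum) - single (n :: w, i) r
        = r • (List.map (fun p : List ι × List ι => single (p.2, i) (h (n :: p.1))) (splits w)).sum := by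
      rw [smul_add, smul_single, smul_eq_mul, mul_one, add_sub_cancel_left]
      rfl
    rw [e, Finsupp.smul_apply, smul_eq_mul]
    congr 1
    have hw : w.length ≤ v.length := by simpa using hv
    rw [lead]
    have g : ∀ (l : List (List ι × List ι)), (∀ p ∈ l, p.2.length < v.length) →
        (List.map (fun p : List ι × List ι => single (p.2, i) (h (n :: p.1))) l).sum (v, j) = 0 := by
      intro l hl
      induction l with
      | nil => simp
      | cons p l ih =>
        rw [List.map_cons, List.sum_cons, Finsupp.add_apply, ih fun q hq => hl q (List.mem_cons_of_mem _ hq),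
          add_zero, Finsupp.single_apply, if_neg]
        intro hc
        have := hl p List.mem_cons_self
        have h2 : p.2 = v := congrArg Prod.fst hc
        rw [h2] at this
        exact lt_irrefl _ this
    cases w with
    | nil =>
      simp only [splits, List.map_cons, List.map_nil, List.sum_cons, List.sum_nil, add_zero,
        Finsupp.single_apply, Prod.mk.injEq]
    | cons y w =>
      rw [splits, List.map_cons, List.sum_cons, Finsupp.add_apply, g, add_zero,
        Finsupp.single_apply]
      · simp only [Prod.mk.injEq]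
      · intro p hp
        rw [List.mem_map] at hp
        obtain ⟨q, hq, rfl⟩ := hp
        have := append_of_mem_splits hq
        have h2 : q.2.length ≤ w.length := by
          rw [← this, List.length_append]
          omega
        simp only [List.length_cons] at hw ⊢
        omega

lemma tau_sub_apply [DecidableEq ι] (h : List ι → ℂ) (h1 : h [] = 1) (c : List ι × ℕ →₀ ℂ)
    (v : List ι) (j : ℕ) (hv : ∀ a ∈ c.support, a.1.length ≤ v.length + 1) :
    (tau h c - c) (v, j) = ∑ a ∈ c.support, c a * lead h v j a := by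
  have e : tau h c - c = ∑ a ∈ c.support, (tau h (single a (c a)) - single a (c a)) := by
    rw [Finset.sum_sub_distrib, ← map_sum]
    conv_lhs => rw [← Finsupp.sum_single c, Finsupp.sum]
  rw [e, Finsupp.finsetSum_apply]
  exact Finset.sum_congr rfl fun a ha => tau_single_apply h h1 a v j (hv a ha) (c a)

lemma tau_sub_length (h : List ι → ℂ) (h1 : h [] = 1) (c : List ι × ℕ →₀ ℂ) (l : ℕ)
    (hv : ∀ a ∈ c.support, a.1.length ≤ l + 1) :
    ∀ a ∈ (tau h c - c).support, a.1.length ≤ l := by
  classical
  have key : ∀ a ∈ c.support, ∀ b : List ι × ℕ, l < b.1.length →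
      (tau h (single a (c a)) - single a (c a)) b = 0 := by
    intro a ha b hb
    obtain ⟨v, j⟩ := b
    rw [tau_single_apply h h1 a v j ((hv a ha).trans (by simp only at hb; omega))]
    have : lead h v j a = 0 := by
      obtain ⟨w, i⟩ := a
      cases w with
      | nil => rfl
      | cons n w =>
        rw [lead, if_neg]
        rintro ⟨rfl, rfl⟩
        have := hv _ ha
        simp only [List.length_cons] at this hb
        omega
    rw [this, mul_zero]
  intro b hb
  by_contra hcon
  push Not at hcon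
  rw [Finsupp.mem_support_iff] at hb
  apply hb
  have e : tau h c - c = ∑ a ∈ c.support, (tau h (single a (c a)) - single a (c a)) := by
    rw [Finset.sum_sub_distrib, ← map_sum]
    conv_lhs => rw [← Finsupp.sum_single c, Finsupp.sum]
  rw [e, Finsupp.finsetSum_apply]
  exact Finset.sum_eq_zero fun a ha => key a ha b hcon

/-- the coordinate of a conjugate -/
lemma conj_letter (g h : Pt wt) (hh : h.t = 1) (n : ι) :
    (g⁻¹ * h * g).ph [n] = g.t ^ wt n * h.ph [n] := by
  rw [mul_letter, mul_letter, hh, one_pow, one_mul]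
  have := mul_letter g⁻¹ g n
  rw [inv_mul_cancel, one_ph, one_cons] at this
  linear_combination -this

/-- the field automorphisms commute on the pair `(z, T)` only if `z ∈ K + K T` -/
theorem gal_key (K : Subfield ℂ) {z T : ℂ} (hT : T ∉ K)
    (hc : ∀ σ τ : ℂ ≃+* ℂ, (∀ x ∈ K, σ x = x) → (∀ x ∈ K, τ x = x) →
      (σ z - z) * (τ T - T) = (τ z - z) * (σ T - T)) : ∃ a ∈ K, ∃ b ∈ K, z = a + b * T := by
  obtain ⟨τ, hτ, hτT⟩ := Pool.Agent.TH119.MX.exists_move hT
  have hne : τ T - T ≠ 0 := sub_ne_zero.2 hτT
  obtain ⟨b, hb⟩ : ∃ b, τ z - z = b * (τ T - T) := ⟨(τ z - z) / (τ T - T), by field_simp⟩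
  have h1 : ∀ σ : ℂ ≃+* ℂ, (∀ x ∈ K, σ x = x) → σ z - z = b * (σ T - T) := by
    intro σ hσ
    have := hc σ τ hσ hτ
    rw [hb] at this
    apply mul_right_cancel₀ hne
    linear_combination this
  have hbK : b ∈ K := by
    by_contra hbK
    obtain ⟨σ, hσ, hσb⟩ := Pool.Agent.TH119.MX.exists_move hbK
    have h2 := h1 (τ.trans σ) fun x hx => by
      rw [RingEquiv.trans_apply, hτ x hx, hσ x hx]
    have h3 := h1 σ hσ
    have h4 := congrArg σ hb
    rw [map_sub, map_mul, map_sub] at h4
    rw [RingEquiv.trans_apply, RingEquiv.trans_apply] at h2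
    have h5 : (σ b - b) * σ (τ T - T) = 0 := by
      rw [map_sub]
      linear_combination h2 - h3 - h4
    rcases mul_eq_zero.1 h5 with h6 | h6
    · exact hσb (sub_eq_zero.1 h6)
    · exact hne ((map_eq_zero σ).1 h6)
  refine ⟨z - b * T, ?_, b, hbK, by ring⟩
  by_contra hcon
  obtain ⟨σ, hσ, hσz⟩ := Pool.Agent.TH119.MX.exists_move hcon
  apply hσz
  rw [map_sub, map_mul, hσ b hbK]
  linear_combination h1 σ hσ

section

variable {X : Set (Pt wt)} (hX : Heap X) {c0 : Pt wt} (h0 : c0 ∈ X) (K : Subfield ℂ)
  (hG : ∀ σ : ℂ ≃+* ℂ, (∀ x ∈ K, σ x = x) → gal σ c0 ∈ X)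

include hX h0 hG

lemma gal_mem (σ : ℂ ≃+* ℂ) (hσ : ∀ x ∈ K, σ x = x) : c0⁻¹ * gal σ c0 ∈ stab hX h0 := by
  rw [mem_stab, mul_inv_cancel_left]
  exact hG σ hσ

/-- the scalars of the stabiliser form an infinite set -/
theorem infinite_t (hT : ∀ m : ℕ, 0 < m → c0.t ^ m ∉ K) :
    {s : ℂ | ∃ h ∈ stab hX h0, h.t = s}.Infinite := by
  intro hfin
  have h1 : (((stab hX h0).map tHom : Subgroup ℂˣ) : Set ℂˣ).Finite := by
    have : (((stab hX h0).map tHom : Subgroup ℂˣ) : Set ℂˣ) ⊆
        (fun u : ℂˣ => (u : ℂ)) ⁻¹' {s : ℂ | ∃ h ∈ stab hX h0, h.t = s} := by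
      rintro u ⟨h, hh, rfl⟩
      exact ⟨h, hh, rfl⟩
    exact (hfin.preimage Units.val_injective.injOn).subset this
  have : Finite ((stab hX h0).map tHom : Subgroup ℂˣ) := h1
  set M := Nat.card ((stab hX h0).map tHom : Subgroup ℂˣ) with hM
  have hM0 : 0 < M := Nat.card_pos
  obtain ⟨σ, hσ, hσT⟩ := Pool.Agent.TH119.MX.exists_move (hT M hM0)
  apply hσT
  have h2 : tHom (c0⁻¹ * gal σ c0) ∈ (stab hX h0).map tHom :=
    ⟨_, gal_mem hX h0 K hG σ hσ, rfl⟩
  have h3 : (⟨tHom (c0⁻¹ * gal σ c0), h2⟩ : ((stab hX h0).map tHom : Subgroup ℂˣ)) ^ M = 1 :=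
    pow_card_eq_one'
  have h4 : (tHom (c0⁻¹ * gal σ c0)) ^ M = 1 := by
    have := congrArg Subtype.val h3
    simpa using this
  have h5 : (c0.t⁻¹ * σ c0.t) ^ M = 1 := by
    have := congrArg (fun u : ℂˣ => (u : ℂ)) h4
    simpa [tHom, mul_t, inv_t] using this
  rw [mul_pow, inv_pow] at h5
  rw [map_pow]
  have h6 : c0.t ^ M ≠ 0 := pow_ne_zero _ c0.ht
  field_simp at h5
  exact h5

/-- the letters for which the coordinate of the point is not in `K + K t ^ n` are seen by the unipotent
part of the stabiliser -/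
theorem exists_unip (n : ι) (hT : c0.t ^ wt n ∉ K)
    (hz : ∀ a ∈ K, ∀ b ∈ K, c0.ph [n] ≠ a + b * c0.t ^ wt n) :
    ∃ h ∈ stab hX h0, h.t = 1 ∧ h.ph [n] ≠ 0 := by
  by_contra hcon
  push Not at hcon
  obtain ⟨a, ha, b, hb, hab⟩ := gal_key K (z := c0.ph [n]) hT (by
    intro σ τ hσ hτ
    have h1 := gal_mem hX h0 K hG σ hσ
    have h2 := gal_mem hX h0 K hG τ hτ
    obtain ⟨p, hp⟩ : ∃ p, p = c0⁻¹ * gal σ c0 := ⟨_, rfl⟩
    obtain ⟨q, hq⟩ : ∃ q, q = c0⁻¹ * gal τ c0 := ⟨_, rfl⟩
    rw [← hp] at h1
    rw [← hq] at h2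
    have e1 : c0 * p = gal σ c0 := by rw [hp, mul_inv_cancel_left]
    have e2 : c0 * q = gal τ c0 := by rw [hq, mul_inv_cancel_left]
    have h3 : p * q * p⁻¹ * q⁻¹ ∈ stab hX h0 :=
      mul_mem (mul_mem (mul_mem h1 h2) (inv_mem h1)) (inv_mem h2)
    have h4 : (p * q * p⁻¹ * q⁻¹).t = 1 := by
      rw [mul_t, mul_t, mul_t, inv_t, inv_t]
      have := p.ht
      have := q.ht
      field_simp
    have h5 := hcon _ h3 h4
    have h6 : p * q = (p * q * p⁻¹ * q⁻¹) * (q * p) := by group
    have h7 := congrArg (fun x : Pt wt => x.ph [n]) h6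
    change (p * q).ph [n] = ((p * q * p⁻¹ * q⁻¹) * (q * p)).ph [n] at h7
    rw [mul_letter p q, mul_letter (p * q * p⁻¹ * q⁻¹), h5, mul_zero, zero_add, mul_letter q p] at h7
    have f1 := congrArg (fun x : Pt wt => x.ph [n]) e1
    have f2 := congrArg (fun x : Pt wt => x.ph [n]) e2
    have g1 := congrArg (fun x : Pt wt => x.t) e1
    have g2 := congrArg (fun x : Pt wt => x.t) e2
    simp only [gal_ph, gal_t, mul_t] at f1 f2 g1 g2
    rw [mul_letter] at f1 f2
    rw [← f1, ← f2, map_pow, map_pow, ← g1, ← g2, mul_pow, mul_pow]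
    linear_combination (c0.t ^ wt n) * h7)
  exact hz a ha b hb hab

/-- the main step: linear independence on `X` -/
theorem indep (hwt : Function.Injective wt) (hT : ∀ m : ℕ, 0 < m → c0.t ^ m ∉ K)
    (hpos : ∀ n, 0 < wt n)
    (hz : ∀ n, ∀ a ∈ K, ∀ b ∈ K, c0.ph [n] ≠ a + b * c0.t ^ wt n) (l : ℕ) :
    ∀ c : List ι × ℕ →₀ ℂ, (∀ a ∈ c.support, a.1.length ≤ l) → (∀ x ∈ X, E x c = 0) → c = 0 := by
  classical
  have hinf := infinite_t hX h0 K hG hT
  induction l with
  | zero =>
    intro c hc hE
    have hnil : ∀ a ∈ c.support, a.1 = [] := fun a ha =>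
      List.length_eq_zero_iff.1 (Nat.le_zero.1 (hc a ha))
    let P : Polynomial ℂ := ∑ a ∈ c.support, Polynomial.monomial a.2 (c a)
    have hP : P = 0 := by
      apply Polynomial.eq_zero_of_infinite_isRoot
      have hinf2 : ((fun s => c0.t * s) '' {s : ℂ | ∃ h ∈ stab hX h0, h.t = s}).Infinite :=
        hinf.image (mul_right_injective₀ c0.ht).injOn
      refine hinf2.mono ?_
      rintro _ ⟨s, ⟨h, hh, rfl⟩, rfl⟩
      have h1 := hE _ (mul_mem_of_stab hX h0 h0 hh)
      change Polynomial.IsRoot P (c0.t * h.t)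
      rw [Polynomial.IsRoot.def, Polynomial.eval_finsetSum, ← h1, E,
        linearCombination_apply, Finsupp.sum]
      apply Finset.sum_congr rfl
      intro a ha
      rw [Polynomial.eval_monomial, smul_eq_mul, mul_t, hnil a ha, (c0 * h).gl.1, mul_one]
    ext a
    obtain ⟨w, i⟩ := a
    by_contra hne
    have ha : (w, i) ∈ c.support := Finsupp.mem_support_iff.2 hne
    have hw : w = [] := hnil _ ha
    subst hw
    have h2 := congrArg (fun Q : Polynomial ℂ => Q.coeff i) hP
    simp only [P, Polynomial.finsetSum_coeff, Polynomial.coeff_monomial, Polynomial.coeff_zero] at h2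
    rw [Finset.sum_eq_single ([], i)] at h2
    · exact hne (by simpa using h2)
    · intro b hb hbi
      rw [if_neg]
      intro h3
      apply hbi
      ext1
      · exact hnil b hb
      · exact h3
    · intro h
      exact absurd ha h
  | succ l ih =>
    intro c hc hE
    apply ih c _ hE
    intro a ha
    by_contra hlen
    push Not at hlen
    obtain ⟨w, j⟩ := a
    cases w with
    | nil => simp at hlen
    | cons n v =>
      have hv : v.length = l := by
        have := hc _ ha
        simp only [List.length_cons] at this hlen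
        omega
      obtain ⟨h, hh, hh1, hhn⟩ := exists_unip hX h0 K hG n (hT _ (hpos n)) (hz n)
      -- the top coefficients are annihilated by all the unipotent elements
      have hann : ∀ u ∈ stab hX h0, u.t = 1 → ∑ a ∈ c.support, c a * lead u.ph v j a = 0 := by
        intro u hu hu1
        have h1 : tau u.ph c - c = 0 := by
          apply ih
          · exact tau_sub_length u.ph u.gl.1 c l hc
          · intro x hx
            rw [map_sub, E_tau x u hu1, hE x hx, hE _ (mul_mem_of_stab hX h0 hx hu), sub_zero]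
        rw [← tau_sub_apply u.ph u.gl.1 c v j (by rw [hv]; exact hc), h1]
        rfl
      let e : List ι × ℕ → ℕ := fun a => match a.1 with
        | [] => 0
        | m :: _ => wt m
      let P : Polynomial ℂ := ∑ a ∈ c.support, Polynomial.monomial (e a) (c a * lead h.ph v j a)
      have hP : P = 0 := by
        apply Polynomial.eq_zero_of_infinite_isRoot
        refine hinf.mono ?_
        rintro _ ⟨g, hg, rfl⟩
        change Polynomial.IsRoot P g.t
        rw [Polynomial.IsRoot.def, Polynomial.eval_finsetSum]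
        have h2 : g⁻¹ * h * g ∈ stab hX h0 := mul_mem (mul_mem (inv_mem hg) hh) hg
        have h3 : (g⁻¹ * h * g).t = 1 := by
          rw [mul_t, mul_t, inv_t, hh1, mul_one, inv_mul_cancel₀ g.ht]
        rw [← hann _ h2 h3]
        apply Finset.sum_congr rfl
        intro a _
        rw [Polynomial.eval_monomial]
        obtain ⟨w, i⟩ := a
        cases w with
        | nil => simp [lead]
        | cons m w =>
          rw [lead, lead, conj_letter g h hh1]
          split_ifs
          · simp only [e]
            ring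
          · simp
      have h2 := congrArg (fun Q : Polynomial ℂ => Q.coeff (wt n)) hP
      simp only [P, Polynomial.finsetSum_coeff, Polynomial.coeff_monomial, Polynomial.coeff_zero] at h2
      rw [Finset.sum_eq_single (n :: v, j)] at h2
      · rw [if_pos (by simp only [e]), lead, if_pos ⟨rfl, rfl⟩] at h2
        rcases mul_eq_zero.1 h2 with h3 | h3
        · exact (Finsupp.mem_support_iff.1 ha) h3
        · exact hhn h3
      · rintro ⟨w, i⟩ hb hbi
        cases w with
        | nil => simp [lead]
        | cons m w =>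
          split_ifs with h4
          · rw [lead, if_neg, mul_zero]
            rintro ⟨rfl, rfl⟩
            apply hbi
            rw [hwt h4]
          · rfl
      · intro h
        exact absurd ha h

end

/-- the coordinates of a point -/
def coord (p : Pt wt) : Option (List ι) → ℂ
  | Option.none => p.t
  | Option.some w => p.ph w

/-- every polynomial in the coordinates is a combination of the functions `t ^ j * ph w` -/
theorem linearize (f : MvPolynomial (Option (List ι)) ℂ) :
    ∃ c : List ι × ℕ →₀ ℂ, ∀ p : Pt wt, MvPolynomial.eval (coord p) f = E p c := by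
  induction f using MvPolynomial.induction_on with
  | C a =>
    refine ⟨single ([], 0) a, fun p => ?_⟩
    rw [MvPolynomial.eval_C, E_single, p.gl.1]
    simp
  | add f g hf hg =>
    obtain ⟨c, hc⟩ := hf
    obtain ⟨d, hd⟩ := hg
    exact ⟨c + d, fun p => by rw [map_add, map_add, hc, hd]⟩
  | mul_X f i hf =>
    obtain ⟨c, hc⟩ := hf
    cases i with
    | none =>
      refine ⟨linearCombination ℂ (fun a : List ι × ℕ => single (a.1, a.2 + 1) (1 : ℂ)) c, fun p => ?_⟩
      rw [map_mul, hc, MvPolynomial.eval_X]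
      have : (E p).comp (linearCombination ℂ (fun a : List ι × ℕ => single (a.1, a.2 + 1) (1 : ℂ))) =
          p.t • E p := by
        apply Finsupp.lhom_ext
        intro a r
        rw [LinearMap.comp_apply, linearCombination_single, map_smul, E_single, LinearMap.smul_apply,
          E_single, smul_eq_mul, smul_eq_mul, pow_succ]
        ring
      rw [← LinearMap.comp_apply, this, LinearMap.smul_apply, smul_eq_mul, coord, mul_comm]
    | some u =>
      refine ⟨linearCombination ℂ (fun a : List ι × ℕ =>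
        ((shuffles a.1 u).map fun s => single (s, a.2) (1 : ℂ)).sum) c, fun p => ?_⟩
      rw [map_mul, hc, MvPolynomial.eval_X]
      have : (E p).comp (linearCombination ℂ (fun a : List ι × ℕ =>
        ((shuffles a.1 u).map fun s => single (s, a.2) (1 : ℂ)).sum)) = p.ph u • E p := by
        apply Finsupp.lhom_ext
        intro a r
        rw [LinearMap.comp_apply, linearCombination_single, map_smul, map_list_sum, List.map_map,
          LinearMap.smul_apply, E_single, smul_eq_mul, smul_eq_mul]
        have h1 : (List.map (⇑(E p) ∘ fun s => single (s, a.2) (1 : ℂ)) (shuffles a.1 u)).sum =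
            p.t ^ a.2 * (p.ph a.1 * p.ph u) := by
          rw [p.gl.2, dl, ← List.sum_map_mul_left]
          congr 1
          apply List.map_congr_left
          intro s _
          rw [Function.comp, E_single, one_mul]
        rw [h1]
        ring
      rw [← LinearMap.comp_apply, this, LinearMap.smul_apply, smul_eq_mul, coord, mul_comm]

/-- density of the heap-stable sets containing all the conjugates of a point -/
theorem dense {X : Set (Pt wt)} (hX : Heap X) {c0 : Pt wt} (h0 : c0 ∈ X) (K : Subfield ℂ)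
    (hG : ∀ σ : ℂ ≃+* ℂ, (∀ x ∈ K, σ x = x) → gal σ c0 ∈ X)
    (hwt : Function.Injective wt) (hT : ∀ m : ℕ, 0 < m → c0.t ^ m ∉ K)
    (hpos : ∀ n, 0 < wt n)
    (hz : ∀ n, ∀ a ∈ K, ∀ b ∈ K, c0.ph [n] ≠ a + b * c0.t ^ wt n)
    (f : MvPolynomial (Option (List ι)) ℂ) (hf : ∀ x ∈ X, MvPolynomial.eval (coord x) f = 0) (p : Pt wt) :
    MvPolynomial.eval (coord p) f = 0 := by
  obtain ⟨c, hc⟩ := linearize (wt := wt) f
  have h1 : c = 0 := by
    refine indep hX h0 K hG hwt hT hpos hz (c.support.sup fun a => a.1.length) c ?_ ?_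
    · intro a ha
      exact Finset.le_sup (f := fun a : List ι × ℕ => a.1.length) ha
    · intro x hx
      rw [← hc, hf x hx]
  rw [hc, h1, map_zero]

end Pool.Agent.J4H79.PT
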