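import Pool.Agent.J4H79.PT.Sh

/-!
# The group of pairs (group-like series, scalar)
-/

set_option autoImplicit false

namespace Pool.Agent.J4H79.PT

variable {ι : Type}

/-- the weight of a word -/
def wtw (wt : ι → ℕ) (w : List ι) : ℕ := (w.map wt).sum

@[simp] lemma wtw_nil (wt : ι → ℕ) : wtw wt [] = 0 := by simp [wtw]

@[simp] lemma wtw_cons (wt : ι → ℕ) (x : ι) (w : List ι) : wtw wt (x :: w) = wt x + wtw wt w := by
  simp [wtw]

/-- rescaling of a series -/
def scal (wt : ι → ℕ) (c : ℂ) (F : List ι → ℂ) (w : List ι) : ℂ := c ^ wtw wt w * F w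

lemma wtw_of_mem_splits (wt : ι → ℕ) {w : List ι} {p : List ι × List ι} (h : p ∈ splits w) :
    wtw wt p.1 + wtw wt p.2 = wtw wt w := by
  induction w generalizing p with
  | nil =>
    rw [splits, List.mem_singleton] at h
    rw [h]
    simp
  | cons x w ih =>
    rw [splits, List.mem_cons, List.mem_map] at h
    rcases h with rfl | ⟨q, hq, rfl⟩
    · simp
    · have := ih hq
      simp only [wtw_cons]
      omega

lemma append_of_mem_splits {w : List ι} {p : List ι × List ι} (h : p ∈ splits w) :
    p.1 ++ p.2 = w := by
  induction w generalizing p with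
  | nil =>
    rw [splits, List.mem_singleton] at h
    rw [h]
    simp
  | cons x w ih =>
    rw [splits, List.mem_cons, List.mem_map] at h
    rcases h with rfl | ⟨q, hq, rfl⟩
    · simp
    · have := ih hq
      simp [this]

lemma wtw_of_mem_shuffles (wt : ι → ℕ) {u v s : List ι} (h : s ∈ shuffles u v) :
    wtw wt s = wtw wt u + wtw wt v := by
  induction hn : u.length + v.length using Nat.strong_induction_on generalizing u v s with
  | _ n ih =>
    cases u with
    | nil =>
      rw [shuffles] at h
      simp at h
      rw [h]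
      simp
    | cons x u =>
      cases v with
      | nil =>
        rw [shuffles] at h
        simp at h
        rw [h]
        simp
      | cons y v =>
        rw [shuffles, List.mem_append, List.mem_map, List.mem_map] at h
        rcases h with ⟨w, hw, rfl⟩ | ⟨w, hw, rfl⟩
        · have := ih (u.length + (y :: v).length) (by simp at hn ⊢; omega) hw rfl
          simp only [wtw_cons] at this hn ⊢
          omega
        · have := ih ((x :: u).length + v.length) (by simp at hn ⊢; omega) hw rfl
          simp only [wtw_cons] at this hn ⊢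
          omega

lemma IsGL.scal {wt : ι → ℕ} {F : List ι → ℂ} (hF : IsGL F) (c : ℂ) : IsGL (scal wt c F) := by
  refine ⟨by simp [PT.scal, hF.1], fun u v => ?_⟩
  have h1 : dl (PT.scal wt c F) u v = c ^ (wtw wt u + wtw wt v) * dl F u v := by
    simp only [dl, ← List.sum_map_mul_left]
    congr 1
    apply List.map_congr_left
    intro s hs
    rw [PT.scal, wtw_of_mem_shuffles wt hs]
  rw [h1, ← hF.2, PT.scal, PT.scal, pow_add]
  ring

lemma scal_conv (wt : ι → ℕ) (c : ℂ) (F G : List ι → ℂ) :
    scal wt c (conv F G) = conv (scal wt c F) (scal wt c G) := by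
  funext w
  rw [scal, conv, conv, ← List.sum_map_mul_left]
  congr 1
  apply List.map_congr_left
  intro p hp
  rw [scal, scal, ← wtw_of_mem_splits wt hp, pow_add]
  ring

lemma scal_scal (wt : ι → ℕ) (c d : ℂ) (F : List ι → ℂ) :
    scal wt c (scal wt d F) = scal wt (c * d) F := by
  funext w
  rw [scal, scal, scal, mul_pow]
  ring

lemma scal_one_left (wt : ι → ℕ) (F : List ι → ℂ) : scal wt 1 F = F := by
  funext w
  rw [scal, one_pow, one_mul]

lemma scal_one_right (wt : ι → ℕ) (c : ℂ) : scal wt c one = one := by
  funext w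
  cases w with
  | nil => simp [scal]
  | cons x w => simp [scal]

/-- the points of the torsor: a group-like series and a nonzero scalar -/
@[ext] structure Pt {ι : Type} (wt : ι → ℕ) where
  /-- the series -/
  ph : List ι → ℂ
  /-- the scalar -/
  t : ℂ
  gl : IsGL ph
  ht : t ≠ 0

variable {wt : ι → ℕ}

instance : Mul (Pt wt) :=
  ⟨fun p q => ⟨conv q.ph (scal wt q.t p.ph), p.t * q.t, q.gl.conv (p.gl.scal q.t),
    mul_ne_zero p.ht q.ht⟩⟩

instance : One (Pt wt) := ⟨⟨one, 1, IsGL.one, one_ne_zero⟩⟩

noncomputable instance : Inv (Pt wt) :=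
  ⟨fun p => ⟨scal wt p.t⁻¹ (anti p.ph), p.t⁻¹, p.gl.anti.scal _, inv_ne_zero p.ht⟩⟩

lemma mul_ph (p q : Pt wt) : (p * q).ph = conv q.ph (scal wt q.t p.ph) := rfl
lemma mul_t (p q : Pt wt) : (p * q).t = p.t * q.t := rfl
lemma one_ph : (1 : Pt wt).ph = one := rfl
lemma one_t : (1 : Pt wt).t = 1 := rfl
lemma inv_ph (p : Pt wt) : (p⁻¹).ph = scal wt p.t⁻¹ (anti p.ph) := rfl
lemma inv_t (p : Pt wt) : (p⁻¹).t = p.t⁻¹ := rfl

noncomputable instance : Group (Pt wt) := Group.ofRightAxioms
  (by
    intro p q r
    ext1
    · rw [mul_ph, mul_ph, mul_ph, mul_ph, mul_t, scal_conv, scal_scal, conv_assoc, mul_comm q.t]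
    · rw [mul_t, mul_t, mul_t, mul_t, mul_assoc])
  (by
    intro p
    ext1
    · rw [mul_ph, one_ph, one_t, scal_one_left, one_conv]
    · rw [mul_t, one_t, mul_one])
  (by
    intro p
    ext1
    · rw [mul_ph, inv_ph, inv_t, ← scal_conv, anti_conv p.gl, scal_one_right, one_ph]
    · rw [mul_t, inv_t, one_t, mul_inv_cancel₀ p.ht])

/-- the coordinate of a letter -/
lemma mul_letter (p q : Pt wt) (n : ι) :
    (p * q).ph [n] = q.t ^ wt n * p.ph [n] + q.ph [n] := by
  rw [mul_ph, conv_cons, conv_nil, q.gl.1]
  simp [scal, p.gl.1]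

/-- the action of the automorphisms of the complex field -/
def gal (σ : ℂ ≃+* ℂ) (p : Pt wt) : Pt wt where
  ph w := σ (p.ph w)
  t := σ p.t
  gl := by
    refine ⟨by change σ (p.ph []) = 1; rw [p.gl.1, map_one], fun u v => ?_⟩
    change σ (p.ph u) * σ (p.ph v) = _
    rw [← map_mul, p.gl.2, dl, dl, map_list_sum, List.map_map]
    rfl
  ht := by
    intro h
    exact p.ht (by simpa using h)

@[simp] lemma gal_ph (σ : ℂ ≃+* ℂ) (p : Pt wt) (w : List ι) : (gal σ p).ph w = σ (p.ph w) := rfl
@[simp] lemma gal_t (σ : ℂ ≃+* ℂ) (p : Pt wt) : (gal σ p).t = σ p.t := rfl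

/-- restriction to words in a smaller alphabet -/
def res {κ : Type} (j : κ → ι) (p : Pt wt) : Pt (fun k => wt (j k)) where
  ph w := p.ph (w.map j)
  t := p.t
  gl := by
    refine ⟨p.gl.1, fun u v => ?_⟩
    change p.ph (u.map j) * p.ph (v.map j) = _
    rw [p.gl.2]
    have key : ∀ u v : List κ, shuffles (u.map j) (v.map j) = (shuffles u v).map (List.map j) := by
      intro u v
      induction hn : u.length + v.length using Nat.strong_induction_on generalizing u v with
      | _ n ih =>
        cases u with
        | nil => simp [shuffles]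
        | cons x u =>
          cases v with
          | nil => simp [shuffles]
          | cons y v =>
            have h1 := ih (u.length + (y :: v).length) (by simp at hn ⊢; omega) u (y :: v) rfl
            have h2 := ih ((x :: u).length + v.length) (by simp at hn ⊢; omega) (x :: u) v rfl
            rw [List.map_cons] at h1 h2
            rw [List.map_cons, List.map_cons, shuffles, shuffles, h1, h2, List.map_append,
              List.map_map, List.map_map, List.map_map, List.map_map]
            rfl
    rw [dl, dl, key, List.map_map]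
    rfl
  ht := p.ht

lemma res_mul {κ : Type} (j : κ → ι) (p q : Pt wt) : res j (p * q) = res j p * res j q := by
  ext1
  · funext w
    change conv q.ph (scal wt q.t p.ph) (w.map j) =
      conv (fun w => q.ph (w.map j)) (scal (fun k => wt (j k)) q.t fun w => p.ph (w.map j)) w
    have h1 : ∀ w : List κ, splits (w.map j) = (splits w).map fun p => (p.1.map j, p.2.map j) := by
      intro w
      induction w with
      | nil => simp [splits]
      | cons x w ih =>
        rw [List.map_cons, splits, splits, ih, List.map_map, List.map_cons, List.map_map]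
        rfl
    have h2 : ∀ w : List κ, wtw wt (w.map j) = wtw (fun k => wt (j k)) w := by
      intro w
      simp [wtw, Function.comp_def]
    rw [conv, conv, h1, List.map_map]
    congr 1
    apply List.map_congr_left
    intro p _
    simp only [Function.comp, scal, h2]
  · rfl

end Pool.Agent.J4H79.PT
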