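import Mathlib

/-!
# Shuffles and series in noncommuting variables
-/

set_option autoImplicit false

namespace Pool.Agent.J4H79.PT

variable {ι : Type}

/-- the shuffles of two words -/
def shuffles : List ι → List ι → List (List ι)
  | [], v => [v]
  | x :: u, [] => [x :: u]
  | x :: u, y :: v => (shuffles u (y :: v)).map (x :: ·) ++ (shuffles (x :: u) v).map (y :: ·)
termination_by u v => u.length + v.length

/-- all the decompositions of a word into two words -/
def splits : List ι → List (List ι × List ι)
  | [] => [([], [])]
  | x :: w => ([], x :: w) :: (splits w).map fun p => (x :: p.1, p.2)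

/-- the product of two series: the coefficient of `w` is the sum of `F u * G v` over `w = u v` -/
def conv (F G : List ι → ℂ) (w : List ι) : ℂ := ((splits w).map fun p => F p.1 * G p.2).sum

/-- the sum over the shuffles -/
def dl (F : List ι → ℂ) (u v : List ι) : ℂ := ((shuffles u v).map F).sum

/-- the series `F(x _)` -/
def hd (F : List ι → ℂ) (x : ι) : List ι → ℂ := fun w => F (x :: w)

@[simp] lemma hd_apply (F : List ι → ℂ) (x : ι) (w : List ι) : hd F x w = F (x :: w) := rfl

@[simp] lemma dl_nil_left (F : List ι → ℂ) (v : List ι) : dl F [] v = F v := by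
  simp [dl, shuffles]

@[simp] lemma dl_nil_right (F : List ι → ℂ) (u : List ι) : dl F u [] = F u := by
  cases u <;> simp [dl, shuffles]

lemma dl_cons (F : List ι → ℂ) (x y : ι) (u v : List ι) :
    dl F (x :: u) (y :: v) = dl (hd F x) u (y :: v) + dl (hd F y) (x :: u) v := by
  simp only [dl, shuffles, List.map_append, List.sum_append, List.map_map]
  rfl

lemma dl_add (F G : List ι → ℂ) (u v : List ι) : dl (F + G) u v = dl F u v + dl G u v := by
  simp only [dl, ← List.sum_map_add]
  rfl

lemma dl_smul (c : ℂ) (F : List ι → ℂ) (u v : List ι) : dl (c • F) u v = c * dl F u v := by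
  simp only [dl, ← List.sum_map_mul_left]
  rfl

@[simp] lemma conv_nil (F G : List ι → ℂ) : conv F G [] = F [] * G [] := by
  simp [conv, splits]

lemma conv_cons (F G : List ι → ℂ) (x : ι) (w : List ι) :
    conv F G (x :: w) = F [] * G (x :: w) + conv (hd F x) G w := by
  simp only [conv, splits, List.map_cons, List.sum_cons, List.map_map]
  rfl

lemma hd_conv (F G : List ι → ℂ) (x : ι) :
    hd (conv F G) x = F [] • hd G x + conv (hd F x) G := by
  funext w
  rw [hd_apply, conv_cons]
  rfl

lemma conv_add_left (F F' G : List ι → ℂ) : conv (F + F') G = conv F G + conv F' G := by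
  funext w
  simp only [conv, Pi.add_apply, ← List.sum_map_add, add_mul]

lemma conv_smul_left (c : ℂ) (F G : List ι → ℂ) : conv (c • F) G = c • conv F G := by
  funext w
  simp only [conv, Pi.smul_apply, smul_eq_mul, ← List.sum_map_mul_left, mul_assoc]

/-- associativity -/
theorem conv_assoc (F G H : List ι → ℂ) : conv (conv F G) H = conv F (conv G H) := by
  funext w
  induction w generalizing F G H with
  | nil => simp [mul_assoc]
  | cons x w ih =>
    rw [conv_cons, conv_cons, hd_conv, conv_add_left, conv_smul_left, Pi.add_apply, Pi.smul_apply,
      ih, conv_nil, conv_cons, smul_eq_mul]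
    ring

/-- the unit series -/
def one : List ι → ℂ
  | [] => 1
  | _ :: _ => 0

@[simp] lemma one_nil : (one : List ι → ℂ) [] = 1 := rfl

@[simp] lemma one_cons (x : ι) (w : List ι) : (one : List ι → ℂ) (x :: w) = 0 := rfl

lemma hd_one (x : ι) : hd (one : List ι → ℂ) x = 0 := by
  funext w
  rfl

lemma conv_zero_left (G : List ι → ℂ) : conv 0 G = 0 := by
  funext w
  simp [conv]

lemma conv_zero_right (G : List ι → ℂ) : conv G 0 = 0 := by
  funext w
  simp [conv]

lemma one_conv (G : List ι → ℂ) : conv one G = G := by
  funext w
  cases w with
  | nil => simp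
  | cons x w => rw [conv_cons, hd_one, conv_zero_left]; simp

lemma conv_one (G : List ι → ℂ) : conv G one = G := by
  funext w
  induction w generalizing G with
  | nil => simp
  | cons x w ih => rw [conv_cons, ih]; simp

/-- the product on functions of pairs of words -/
def conv2 (P Q : List ι → List ι → ℂ) (u v : List ι) : ℂ :=
  ((splits u).map fun p => ((splits v).map fun q => P p.1 q.1 * Q p.2 q.2).sum).sum

lemma conv2_nil (P Q : List ι → List ι → ℂ) (v : List ι) :
    conv2 P Q [] v = conv (P []) (Q []) v := by
  simp [conv2, splits, conv]

lemma conv2_cons (P Q : List ι → List ι → ℂ) (x : ι) (u v : List ι) :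
    conv2 P Q (x :: u) v = conv (P []) (Q (x :: u)) v + conv2 (fun u => P (x :: u)) Q u v := by
  simp only [conv2, splits, List.map_cons, List.sum_cons, List.map_map, conv]
  rfl

lemma conv2_add_left (P P' Q : List ι → List ι → ℂ) (u v : List ι) :
    conv2 (P + P') Q u v = conv2 P Q u v + conv2 P' Q u v := by
  simp only [conv2, Pi.add_apply, ← List.sum_map_add, add_mul]

lemma conv2_smul_left (c : ℂ) (P Q : List ι → List ι → ℂ) (u v : List ι) :
    conv2 (c • P) Q u v = c * conv2 P Q u v := by
  simp only [conv2, Pi.smul_apply, smul_eq_mul, ← List.sum_map_mul_left, mul_assoc]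

/-- on the second variable -/
lemma conv2_nil_right (P Q : List ι → List ι → ℂ) (u : List ι) :
    conv2 P Q u [] = conv (fun u => P u []) (fun u => Q u []) u := by
  simp [conv2, splits, conv]

lemma conv2_cons_right (P Q : List ι → List ι → ℂ) (y : ι) (u v : List ι) :
    conv2 P Q u (y :: v) = conv (fun u => P u []) (fun u => Q u (y :: v)) u +
      conv2 (fun u v => P u (y :: v)) Q u v := by
  simp only [conv2, splits, List.map_cons, List.sum_cons, List.map_map, conv,
    ← List.sum_map_add]
  rfl

/-- the product is compatible with the shuffles -/
theorem dl_conv (F G : List ι → ℂ) (u v : List ι) :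
    dl (conv F G) u v = conv2 (dl F) (dl G) u v := by
  induction hn : u.length + v.length using Nat.strong_induction_on generalizing F G u v with
  | _ n ih =>
    cases u with
    | nil =>
      rw [dl_nil_left, conv2_nil]
      congr 1 <;> (funext w; rw [dl_nil_left])
    | cons x u =>
      cases v with
      | nil =>
        rw [dl_nil_right, conv2_nil_right]
        congr 1 <;> (funext w; rw [dl_nil_right])
      | cons y v =>
        have h1 := ih (u.length + (y :: v).length) (by simp at hn ⊢; omega) (hd F x) G u (y :: v) rfl
        have h2 := ih ((x :: u).length + v.length) (by simp at hn ⊢; omega) (hd F y) G (x :: u) v rfl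
        have e1 : (fun u v => dl F (x :: u) (y :: v)) =
            (fun u v => dl (hd F x) u (y :: v)) + fun u v => dl (hd F y) (x :: u) v := by
          funext u v
          rw [dl_cons]
          rfl
        have e2 : (fun u => dl F (x :: u) []) = fun u => dl (hd F x) u [] := by
          funext u
          rw [dl_nil_right, dl_nil_right, hd_apply]
        have e3 : hd (dl F []) y = dl (hd F y) [] := by
          funext w
          rw [hd_apply, dl_nil_left, dl_nil_left, hd_apply]
        have r1 : conv2 (dl F) (dl G) (x :: u) (y :: v) =
            conv (dl F []) (dl G (x :: u)) (y :: v) +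
              conv2 (fun u => dl F (x :: u)) (dl G) u (y :: v) := conv2_cons _ _ _ _ _
        have r2 : conv (dl F []) (dl G (x :: u)) (y :: v) =
            F [] * dl G (x :: u) (y :: v) + conv (dl (hd F y) []) (dl G (x :: u)) v := by
          rw [conv_cons, e3, dl_nil_left]
        have r3 : conv2 (fun u => dl F (x :: u)) (dl G) u (y :: v) =
            conv (fun u => dl (hd F x) u []) (fun u => dl G u (y :: v)) u +
              (conv2 (fun u v => dl (hd F x) u (y :: v)) (dl G) u v +
                conv2 (fun u v => dl (hd F y) (x :: u) v) (dl G) u v) := by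
          rw [conv2_cons_right, e2, e1, conv2_add_left]
        have r4 : conv2 (dl (hd F x)) (dl G) u (y :: v) =
            conv (fun u => dl (hd F x) u []) (fun u => dl G u (y :: v)) u +
              conv2 (fun u v => dl (hd F x) u (y :: v)) (dl G) u v := conv2_cons_right _ _ _ _ _
        have r5 : conv2 (dl (hd F y)) (dl G) (x :: u) v =
            conv (dl (hd F y) []) (dl G (x :: u)) v +
              conv2 (fun u v => dl (hd F y) (x :: u) v) (dl G) u v := conv2_cons _ _ _ _ _
        rw [r1, r2, r3, dl_cons, hd_conv, hd_conv, dl_add, dl_add, dl_smul, dl_smul, h1, h2, r4, r5,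
          dl_cons G]
        ring

/-- group-like series -/
def IsGL (F : List ι → ℂ) : Prop := F [] = 1 ∧ ∀ u v, F u * F v = dl F u v

lemma conv2_mul (A B C D : List ι → ℂ) (u v : List ι) :
    conv2 (fun u v => A u * B v) (fun u v => C u * D v) u v = conv A C u * conv B D v := by
  have : conv A C u * conv B D v =
      ((splits u).map fun p => (A p.1 * C p.2) * conv B D v).sum := by
    rw [List.sum_map_mul_right]
    rfl
  rw [this, conv2]
  congr 1
  apply List.map_congr_left
  intro p _
  rw [conv, ← List.sum_map_mul_left]
  congr 1
  apply List.map_congr_left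
  intro q _
  ring

theorem IsGL.conv {F G : List ι → ℂ} (hF : IsGL F) (hG : IsGL G) : IsGL (conv F G) := by
  refine ⟨by rw [conv_nil, hF.1, hG.1, one_mul], fun u v => ?_⟩
  rw [dl_conv, ← conv2_mul]
  congr 1
  · funext u v; exact hF.2 u v
  · funext u v; exact hG.2 u v

theorem IsGL.one : IsGL (one : List ι → ℂ) := by
  refine ⟨rfl, fun u v => ?_⟩
  cases u with
  | nil => simp
  | cons x u =>
    cases v with
    | nil => simp
    | cons y v =>
      have hz : ∀ u v : List ι, dl (0 : List ι → ℂ) u v = 0 := by
        intro u v
        have : (0 : List ι → ℂ) = (0 : ℂ) • 0 := by simp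
        rw [this, dl_smul, zero_mul]
      rw [dl_cons, hd_one, hd_one, hz, hz]
      simp

/-- the series `F(_ x)` -/
def tl (F : List ι → ℂ) (x : ι) : List ι → ℂ := fun w => F (w ++ [x])

lemma hd_tl (F : List ι → ℂ) (x y : ι) : hd (tl F x) y = tl (hd F y) x := rfl

theorem dl_concat (F : List ι → ℂ) (a b : ι) (u v : List ι) :
    dl F (u ++ [a]) (v ++ [b]) = dl (tl F a) u (v ++ [b]) + dl (tl F b) (u ++ [a]) v := by
  induction hn : u.length + v.length using Nat.strong_induction_on generalizing F u v with
  | _ n ih =>
    cases u with
    | nil =>
      cases v with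
      | nil =>
        simp only [List.nil_append]
        rw [dl_cons, dl_nil_left, dl_nil_left, dl_nil_right, dl_nil_right]
        simp only [hd_apply, tl, List.cons_append, List.nil_append]
        ring
      | cons y v =>
        have h2 := ih (([] : List ι).length + v.length) (by simp at hn ⊢; omega) (hd F y) [] v rfl
        simp only [List.nil_append, List.cons_append] at h2 ⊢
        rw [dl_cons, h2, dl_nil_left, dl_nil_left, dl_nil_left, dl_cons, dl_nil_left]
        simp only [hd_apply, hd_tl]
        simp only [tl, List.cons_append, hd_apply]
        ring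
    | cons x u =>
      cases v with
      | nil =>
        have h1 := ih (u.length + ([] : List ι).length) (by simp at hn ⊢; omega) (hd F x) u [] rfl
        simp only [List.nil_append, List.cons_append] at h1 ⊢
        rw [dl_cons, h1, dl_nil_right, dl_nil_right, dl_nil_right, dl_cons, dl_nil_right]
        simp only [hd_apply, hd_tl]
        simp only [tl, List.cons_append, hd_apply]
        ring
      | cons y v =>
        have h1 := ih (u.length + (y :: v).length) (by simp at hn ⊢; omega) (hd F x) u (y :: v) rfl
        have h2 := ih ((x :: u).length + v.length) (by simp at hn ⊢; omega) (hd F y) (x :: u) v rfl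
        simp only [List.cons_append] at h1 h2 ⊢
        rw [dl_cons, h1, h2, dl_cons, dl_cons, hd_tl, hd_tl, hd_tl, hd_tl]
        ring

/-- shuffles of reversed words -/
theorem dl_reverse (F : List ι → ℂ) (u v : List ι) :
    dl F u.reverse v.reverse = dl (fun w => F w.reverse) u v := by
  induction hn : u.length + v.length using Nat.strong_induction_on generalizing F u v with
  | _ n ih =>
    cases u with
    | nil => simp
    | cons x u =>
      cases v with
      | nil => simp
      | cons y v =>
        have h1 := ih (u.length + (y :: v).length) (by simp at hn ⊢; omega) (tl F x) u (y :: v) rfl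
        have h2 := ih ((x :: u).length + v.length) (by simp at hn ⊢; omega) (tl F y) (x :: u) v rfl
        simp only [List.reverse_cons] at h1 h2 ⊢
        rw [dl_concat, h1, h2, dl_cons]
        congr 1
        · congr 1
          funext w
          simp [tl]
        · congr 1
          funext w
          simp [tl]

/-- the antipode -/
def anti (F : List ι → ℂ) (w : List ι) : ℂ := (-1) ^ w.length * F w.reverse

lemma length_of_mem_shuffles {u v s : List ι} (h : s ∈ shuffles u v) :
    s.length = u.length + v.length := by
  induction hn : u.length + v.length using Nat.strong_induction_on generalizing u v s with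
  | _ n ih =>
    cases u with
    | nil =>
      rw [shuffles] at h
      simp at h
      rw [h]
      simpa using hn
    | cons x u =>
      cases v with
      | nil =>
        rw [shuffles] at h
        simp at h
        rw [h]
        simpa using hn
      | cons y v =>
        rw [shuffles, List.mem_append, List.mem_map, List.mem_map] at h
        rcases h with ⟨w, hw, rfl⟩ | ⟨w, hw, rfl⟩
        · have := ih (u.length + (y :: v).length) (by simp at hn ⊢; omega) hw rfl
          simp only [List.length_cons] at this hn ⊢
          omega
        · have := ih ((x :: u).length + v.length) (by simp at hn ⊢; omega) hw rfl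
          simp only [List.length_cons] at this hn ⊢
          omega

theorem IsGL.anti {F : List ι → ℂ} (hF : IsGL F) : IsGL (anti F) := by
  refine ⟨by simp [PT.anti, hF.1], fun u v => ?_⟩
  have h1 : dl (PT.anti F) u v = (-1) ^ (u.length + v.length) * dl (fun w => F w.reverse) u v := by
    simp only [dl, ← List.sum_map_mul_left]
    congr 1
    apply List.map_congr_left
    intro s hs
    rw [PT.anti, length_of_mem_shuffles hs]
  rw [h1, ← dl_reverse, ← hF.2, PT.anti, PT.anti, pow_add]
  ring

/-- the sum `F(a) F(w) - F(w_1 a) F(w_2 ...) + ...` -/
def alt (F : List ι → ℂ) : List ι → List ι → ℂ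
  | a, [] => F a * F []
  | a, y :: w => F a * F (y :: w) - alt F (y :: a) w

lemma alt_eq {F : List ι → ℂ} (hF : IsGL F) (w : List ι) :
    (∀ x a, alt F (x :: a) w = dl (hd F x) a w) ∧ alt F [] w = one w := by
  induction w with
  | nil =>
    refine ⟨fun x a => ?_, ?_⟩
    · rw [alt, hF.1, dl_nil_right, hd_apply, mul_one]
    · rw [alt, hF.1]
      simp
  | cons y w ih =>
    refine ⟨fun x a => ?_, ?_⟩
    · rw [alt, ih.1, hF.2, dl_cons]
      ring
    · rw [alt, ih.1, hF.1, dl_nil_left]
      simp

lemma conv_anti_eq (F : List ι → ℂ) (a w : List ι) :
    ((splits w).map fun p => (-1) ^ p.1.length * F (p.1.reverse ++ a) * F p.2).sum = alt F a w := by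
  induction w generalizing a with
  | nil => simp [splits, alt]
  | cons y w ih =>
    simp only [splits, List.map_cons, List.sum_cons, List.map_map, alt]
    rw [← ih (y :: a)]
    have : (List.map ((fun p : List ι × List ι => (-1 : ℂ) ^ p.1.length * F (p.1.reverse ++ a) * F p.2) ∘
        fun p => (y :: p.1, p.2)) (splits w)) =
        List.map (fun p : List ι × List ι => (-1 : ℂ) *
          ((-1) ^ p.1.length * F (p.1.reverse ++ y :: a) * F p.2)) (splits w) := by
      apply List.map_congr_left
      intro p _
      simp only [Function.comp, List.length_cons, List.reverse_cons, List.append_assoc,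
        List.cons_append, List.nil_append, pow_succ]
      ring
    rw [this, List.sum_map_mul_left]
    simp
    ring

theorem anti_conv {F : List ι → ℂ} (hF : IsGL F) : conv (anti F) F = one := by
  funext w
  rw [← (alt_eq hF w).2, ← conv_anti_eq]
  simp [conv, anti]

end Pool.Agent.J4H79.PT
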